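import Pool.Agent.Helper72.LSr.FDef
import Pool.Agent.Helper72.LSr.N1
import Pool.Agent.Helper72.LSr.C0

/-!
LR-E1: `form_bip` (bipartite graph with `m` edges, no larger cliques).
-/

namespace Pool.Agent.Helper77.LSr

open Finset
open scoped Classical
open Pool.Agent.Helper72.LSr

/-- bipartite graph on `Fin a ⊕ Fin b` with the prescribed edges -/
def ebBip {a b : ℕ} (S : Finset (Fin a × Fin b)) : SimpleGraph (Fin a ⊕ Fin b) where
  Adj u v := match u, v with
    | Sum.inl i, Sum.inr j => (i, j) ∈ S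
    | Sum.inr j, Sum.inl i => (i, j) ∈ S
    | _, _ => False
  symm := ⟨by
    intro u v h
    rcases u with u | u <;> rcases v with v | v <;> exact h⟩
  loopless := ⟨by
    intro u h
    rcases u with u | u <;> exact h⟩

theorem ebBip_lr {a b : ℕ} (S : Finset (Fin a × Fin b)) (i : Fin a) (j : Fin b) :
    (ebBip S).Adj (Sum.inl i) (Sum.inr j) ↔ (i, j) ∈ S := Iff.rfl

theorem ebBip_rl {a b : ℕ} (S : Finset (Fin a × Fin b)) (i : Fin a) (j : Fin b) :
    (ebBip S).Adj (Sum.inr j) (Sum.inl i) ↔ (i, j) ∈ S := Iff.rfl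

theorem ebBip_ll {a b : ℕ} (S : Finset (Fin a × Fin b)) (i j : Fin a) :
    ¬ (ebBip S).Adj (Sum.inl i) (Sum.inl j) := fun h => h

theorem ebBip_rr {a b : ℕ} (S : Finset (Fin a × Fin b)) (i j : Fin b) :
    ¬ (ebBip S).Adj (Sum.inr i) (Sum.inr j) := fun h => h

theorem ebBip_cf {a b : ℕ} (S : Finset (Fin a × Fin b)) : (ebBip S).CliqueFree 3 := by
  intro t ht
  rw [SimpleGraph.is3Clique_iff] at ht
  obtain ⟨x, y, z, hxy, hxz, hyz, -⟩ := ht
  rcases x with x | x <;> rcases y with y | y <;> rcases z with z | z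
  · exact ebBip_ll S _ _ hxy
  · exact ebBip_ll S _ _ hxy
  · exact ebBip_ll S _ _ hxz
  · exact ebBip_rr S _ _ hyz
  · exact ebBip_ll S _ _ hyz
  · exact ebBip_rr S _ _ hxz
  · exact ebBip_rr S _ _ hxy
  · exact ebBip_rr S _ _ hxy

theorem K_eq_card {V : Type} (G : SimpleGraph V) (S : Finset V) (r : ℕ) :
    ∃ F : Finset (Finset V), (∀ t, t ∈ F ↔ (t ∈ S.powersetCard r ∧ G.IsClique (t : Set V))) ∧
      K G S r = F.card :=
  ⟨_, fun _ => mem_filter, rfl⟩

theorem ebBip_K_two {a b : ℕ} (S : Finset (Fin a × Fin b)) :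
    K (ebBip S) univ 2 = S.card := by
  have hcard : ∀ F : Finset (Finset (Fin a ⊕ Fin b)),
      (∀ t, t ∈ F ↔ (t ∈ (univ : Finset (Fin a ⊕ Fin b)).powersetCard 2 ∧
        (ebBip S).IsClique (t : Set (Fin a ⊕ Fin b)))) → F.card = S.card := by
    intro F hF
    have himg : F = S.image (fun p => ({Sum.inl p.1, Sum.inr p.2} : Finset (Fin a ⊕ Fin b))) := by
      ext t
      rw [hF, mem_powersetCard, mem_image]
      constructor
      · rintro ⟨⟨-, hc⟩, hcl⟩
        obtain ⟨x, y, hxy, rfl⟩ := Finset.card_eq_two.1 hc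
        have hadj : (ebBip S).Adj x y := hcl (by simp) (by simp) hxy
        rcases x with x | x <;> rcases y with y | y
        · exact absurd hadj (ebBip_ll S _ _)
        · exact ⟨(x, y), hadj, rfl⟩
        · exact ⟨(y, x), hadj, Finset.pair_comm _ _⟩
        · exact absurd hadj (ebBip_rr S _ _)
      · rintro ⟨⟨i, j⟩, hp, rfl⟩
        refine ⟨⟨subset_univ _, Finset.card_pair (by simp)⟩, ?_⟩
        intro x hx y hy hxy
        simp only [coe_insert, coe_singleton, Set.mem_insert_iff, Set.mem_singleton_iff] at hx hy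
        rcases hx with rfl | rfl <;> rcases hy with rfl | rfl
        · exact absurd rfl hxy
        · exact hp
        · exact hp
        · exact absurd rfl hxy
    rw [himg, Finset.card_image_of_injective]
    rintro ⟨i, j⟩ ⟨i', j'⟩ h
    have h1 : (Sum.inl i : Fin a ⊕ Fin b) ∈ ({Sum.inl i', Sum.inr j'} : Finset (Fin a ⊕ Fin b)) := by
      have : ({Sum.inl i, Sum.inr j} : Finset (Fin a ⊕ Fin b)) = {Sum.inl i', Sum.inr j'} := h
      rw [← this]; simp
    have h2 : (Sum.inr j : Fin a ⊕ Fin b) ∈ ({Sum.inl i', Sum.inr j'} : Finset (Fin a ⊕ Fin b)) := by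
      have : ({Sum.inl i, Sum.inr j} : Finset (Fin a ⊕ Fin b)) = {Sum.inl i', Sum.inr j'} := h
      rw [← this]; simp
    simp only [mem_insert, mem_singleton, Sum.inl.injEq, reduceCtorEq, or_false] at h1
    simp only [mem_insert, mem_singleton, Sum.inr.injEq, reduceCtorEq, false_or] at h2
    rw [h1, h2]
  obtain ⟨F, hF, hK⟩ := K_eq_card (ebBip S) univ 2
  rw [hK, hcard F hF]

theorem K_eq_zero_of_cliqueFree {V : Type} {G : SimpleGraph V} (h : G.CliqueFree 3)
    (S : Finset V) (r : ℕ) : K G S (r + 3) = 0 := by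
  unfold K
  rw [Nat.cast_eq_zero, Finset.card_eq_zero, Finset.filter_eq_empty_iff]
  intro t ht hcl
  rw [mem_powersetCard] at ht
  exact (h.mono (by omega : 3 ≤ r + 3)) t ⟨hcl, ht.2⟩

theorem ebBip_form {a b : ℕ} (ha : 1 ≤ a) (S : Finset (Fin a × Fin b)) :
    PartiteForm (ebBip S) := by
  refine ⟨1, fun _ => 0, 0, ?_, ?_, ?_, ?_⟩
  · intro y
    exact ⟨Sum.inl ⟨0, ha⟩, Subsingleton.elim _ _⟩
  · intro u v h
    exact absurd rfl h
  · intro u v _ _
    rfl
  · exact (ebBip_cf S).comap ⟨(SimpleGraph.Embedding.induce _).toCopy⟩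

theorem form_bip (a b m : ℕ) (ha : 1 ≤ a) (hm : m ≤ a * b) :
    ∃ (W : Type) (_ : Fintype W) (Γ : SimpleGraph W), Fintype.card W = a + b ∧
      K Γ univ 2 = m ∧ (∀ r, K Γ univ (r + 3) = 0) ∧ PartiteForm Γ := by
  have hc : m ≤ (univ : Finset (Fin a × Fin b)).card := by
    rw [Finset.card_univ, Fintype.card_prod, Fintype.card_fin, Fintype.card_fin]
    exact hm
  obtain ⟨S, -, hS⟩ := Finset.exists_subset_card_eq hc
  refine ⟨Fin a ⊕ Fin b, inferInstance, ebBip S, ?_, ?_, ?_, ?_⟩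
  · simp
  · rw [ebBip_K_two, hS]
  · exact fun r => K_eq_zero_of_cliqueFree (ebBip_cf S) _ r
  · exact ebBip_form ha S

end Pool.Agent.Helper77.LSr
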