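import Pool.Agent.Helper72.LSr.NumDef

/-!
# PROJECT LSR, piece LR-F1: numerical lemmas `two_le_k`, `far1`, `far2`, `c3`.
-/

namespace Pool.Agent.Helper77.LSr

open Pool.Agent.Helper72.LSr

variable {k M X D Y ρ mm : ℤ}

/-- bounds for the negative part of `ρ` in the two cases, with a common name -/
private theorem cases' (h : NumH k M X D Y ρ mm) :
    (max (-ρ) 0 = 0 ∧ D ≤ k + 1 ∧ D - Y - ρ - mm ≤ D - Y - 2) ∨
    (0 ≤ max (-ρ) 0 ∧ D ≤ k ∧ D - Y - ρ - mm ≤ D - Y + max (-ρ) 0 - 1) := by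
  obtain ⟨hk, hD, hX, hY, hε, hcase, hm, hZ, hJ⟩ := h
  rcases hcase with ⟨h1, h2⟩ | ⟨h1, h2⟩
  · left
    have : max (-ρ) 0 = 0 := max_eq_right (by omega)
    exact ⟨this, by omega, by omega⟩
  · right
    have : max (-ρ) 0 = -ρ := max_eq_left (by omega)
    rw [this]
    exact ⟨by omega, by omega, by omega⟩

theorem two_le_k (h : NumH k M X D Y ρ mm) : 2 ≤ k := by
  have hc := cases' h
  obtain ⟨hk, hD, hX, hY, hε, hcase, hm, hZ, hJ⟩ := h
  rcases hc with ⟨h1, h2, h3⟩ | ⟨h1, h2, h3⟩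
  · omega
  · omega

theorem far1 (h : NumH k M X D Y ρ mm) (Du : ℤ) (hDu : M + 2 ≤ 2 * Du) :
    (k + 1) * (Y * (D - Y - ρ - mm) - max (-ρ) 0 * D) ≤ (k + 1) * Y * Du + k * (Du - 1) * D := by
  have hc := cases' h
  have hr : 0 ≤ max (-ρ) 0 := le_max_right _ _
  obtain ⟨hk, hD, hX, hY, hε, hcase, hm, hZ, hJ⟩ := h
  generalize max (-ρ) 0 = r at *
  generalize D - Y - ρ - mm = Z at *
  have hk1 : 0 ≤ k + 1 := by omega
  have hYp : 0 ≤ Y := by omega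
  have hDp : 0 ≤ D := by omega
  have hkD : 0 ≤ k * D := mul_nonneg (by omega) hDp
  have hkY : 0 ≤ (k + 1) * Y := mul_nonneg hk1 hYp
  have hDk : D ≤ k + 1 := by omega
  -- the lower bounds for `2 Du` and `2 (Du - 1)`
  have e1 : (k + 1) * Y * (D + 1) ≤ (k + 1) * Y * (2 * Du) :=
    mul_le_mul_of_nonneg_left (by omega) hkY
  have e2 : k * D * (D - 1) ≤ k * D * (2 * (Du - 1)) :=
    mul_le_mul_of_nonneg_left (by omega) hkD
  have e3 : (k + 1) * (D - 1) * (D - 1) ≤ k * D * (D - 1) :=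
    mul_le_mul_of_nonneg_right (by nlinarith) (by omega)
  rcases hc with ⟨h1, h2, h3⟩ | ⟨h1, h2, h3⟩
  · subst h1
    have e4 : (k + 1) * Y * Z ≤ (k + 1) * Y * (D - Y - 2) := mul_le_mul_of_nonneg_left h3 hkY
    have e5 : 0 ≤ (k + 1) * (2 * Y ^ 2 - (D - 5) * Y + (D - 1) ^ 2) :=
      mul_nonneg hk1 (by nlinarith [sq_nonneg (D - 1 - Y), sq_nonneg Y])
    nlinarith
  · have e4 : (k + 1) * Y * Z ≤ (k + 1) * Y * (D - Y + r - 1) := mul_le_mul_of_nonneg_left h3 hkY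
    have e5 : 0 ≤ (k + 1) * (2 * Y ^ 2 - (D - 3) * Y + (D - 1) ^ 2) :=
      mul_nonneg hk1 (by nlinarith [sq_nonneg (D - 1 - Y), sq_nonneg Y])
    have e6 : 0 ≤ (k + 1) * (r * (D - Y)) := mul_nonneg hk1 (mul_nonneg hr (by omega))
    nlinarith

theorem far2 (h : NumH k M X D Y ρ mm) (Du : ℤ) (hDu : M + 1 ≤ Du) :
    (k + 1) * (Y * (D - Y - ρ - mm) - max (-ρ) 0 * D) ≤ (k + 1) * Y * Du + k * (Du - 2) * D := by
  have hc := cases' h
  have hr : 0 ≤ max (-ρ) 0 := le_max_right _ _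
  obtain ⟨hk, hD, hX, hY, hε, hcase, hm, hZ, hJ⟩ := h
  generalize max (-ρ) 0 = r at *
  generalize D - Y - ρ - mm = Z at *
  have hk1 : 0 ≤ k + 1 := by omega
  have hYp : 0 ≤ Y := by omega
  have hDp : 0 ≤ D := by omega
  have hkD : 0 ≤ k * D := mul_nonneg (by omega) hDp
  have hkY : 0 ≤ (k + 1) * Y := mul_nonneg hk1 hYp
  have e1 : (k + 1) * Y * D ≤ (k + 1) * Y * Du := mul_le_mul_of_nonneg_left (by omega) hkY
  have e2 : 0 ≤ k * D * (Du - 2) := mul_nonneg hkD (by omega)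
  rcases hc with ⟨h1, h2, h3⟩ | ⟨h1, h2, h3⟩
  · subst h1
    have e4 : (k + 1) * Y * Z ≤ (k + 1) * Y * D := mul_le_mul_of_nonneg_left (by omega) hkY
    nlinarith
  · have e4 : (k + 1) * Y * Z ≤ (k + 1) * Y * (D + r) := mul_le_mul_of_nonneg_left (by omega) hkY
    have e6 : 0 ≤ (k + 1) * (r * (D - Y)) := mul_nonneg hk1 (mul_nonneg hr (by omega))
    nlinarith

theorem c3 (h : NumH k M X D Y ρ mm) :
    (k + 1) * (Y * (D - Y - ρ - mm) - max (-ρ) 0 * D) ≤ k * D * (D - Y) := by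
  have hc := cases' h
  have hr : 0 ≤ max (-ρ) 0 := le_max_right _ _
  obtain ⟨hk, hD, hX, hY, hε, hcase, hm, hZ, hJ⟩ := h
  generalize max (-ρ) 0 = r at *
  generalize D - Y - ρ - mm = Z at *
  have hk1 : 0 ≤ k + 1 := by omega
  have hYp : 0 ≤ Y := by omega
  have hDp : 0 ≤ D := by omega
  have hkY : 0 ≤ (k + 1) * Y := mul_nonneg hk1 hYp
  have hDk : D ≤ k + 1 := by omega
  have e0 : (k + 1) * Y * (D - Y) ≤ k * D * (D - Y) := by
    refine mul_le_mul_of_nonneg_right ?_ (by omega)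
    have : (k + 1) * Y ≤ (k + 1) * (D - 1) := mul_le_mul_of_nonneg_left (by omega) hk1
    nlinarith
  rcases hc with ⟨h1, h2, h3⟩ | ⟨h1, h2, h3⟩
  · subst h1
    have e4 : (k + 1) * Y * Z ≤ (k + 1) * Y * (D - Y) := mul_le_mul_of_nonneg_left (by omega) hkY
    nlinarith
  · have e4 : (k + 1) * Y * Z ≤ (k + 1) * Y * (D - Y + r) := mul_le_mul_of_nonneg_left (by omega) hkY
    have e6 : 0 ≤ (k + 1) * (r * (D - Y)) := mul_nonneg hk1 (mul_nonneg hr (by omega))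
    nlinarith

end Pool.Agent.Helper77.LSr
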